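import Mathlib
import Pool.Agent.Lib.MP_1d9d5b_an.Model

set_option autoImplicit false

open MeasureTheory AddCircle Set Filter Topology Real

noncomputable section

namespace Pool.Agent.Results.MP_1d9d5b_an.NaturalSpectrum

instance instTwoPiPos : Fact (0 < 2 * π) := ⟨Real.two_pi_pos⟩

/-- The space `L¹(𝕋)`. -/
abbrev L1 : Type := Lp ℂ 1 (haarAddCircle (T := 2 * π))

/-- Fourier coefficients of a measure: `μ̂(n) = ∫ e^{-int} dμ(t)`. -/
def coeff (μ : Measure (AddCircle (2 * π))) (n : ℤ) : ℂ := ∫ t, fourier (-n) t ∂μ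

/-- Riesz products: `μ` is the weak-* limit of `∏_{k<N} (1 + Re (a_k e^{i n_k t})) dt/2π`, where
`n_k` are positive integers with `n_{k+1} ≥ 3 n_k` and `|a_k| ≤ 1`. -/
def IsRieszProduct (μ : Measure (AddCircle (2 * π))) : Prop :=
  ∃ (n : ℕ → ℕ) (a : ℕ → ℂ), (∀ k, 0 < n k) ∧ (∀ k, 3 * n k ≤ n (k + 1)) ∧ (∀ k, ‖a k‖ ≤ 1) ∧
    ∀ f : C(AddCircle (2 * π), ℂ),
      Tendsto (fun N : ℕ => ∫ t, f t *
          ((∏ k ∈ Finset.range N, (1 + (a k * fourier (n k : ℤ) t).re) : ℝ) : ℂ)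
          ∂(haarAddCircle (T := 2 * π)))
        atTop (𝓝 (∫ t, f t ∂μ))

/-- `μ ∈ M₀(𝕋)`: `μ̂(n) → 0` as `|n| → ∞`. -/
def IsRajchman (μ : Measure (AddCircle (2 * π))) : Prop := Tendsto (coeff μ) cofinite (𝓝 0)

/-- `X`, with the embedding `J` into `L¹(𝕋)`, is the Hardy space `H¹(𝕋)`: `J` is a linear isometry
onto the set of all `f ∈ L¹(𝕋)` with `f̂(n) = 0` for all `n < 0`. -/
def IsHardySpace {X : Type} [NormedAddCommGroup X] [NormedSpace ℂ X] (J : X →ₗᵢ[ℂ] L1) : Prop :=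
  range J = {f : L1 | ∀ n : ℤ, n < 0 → fourierCoeff (f : AddCircle (2 * π) → ℂ) n = 0}

/-- The bounded operator `A` on `X = H¹(𝕋)` is `T_μ : f ↦ μ * f`. -/
def IsMultiplier (μ : Measure (AddCircle (2 * π))) {X : Type} [NormedAddCommGroup X]
    [NormedSpace ℂ X] (J : X →ₗᵢ[ℂ] L1) (A : X →L[ℂ] X) : Prop :=
  ∀ f : X, ∀ᵐ x ∂(haarAddCircle (T := 2 * π)), (J (A f)) x = ∫ t, (J f) (x - t) ∂μ

/-- Sanity check: the closed subspace `H¹(𝕋)` of `L¹(𝕋)` with its inclusion is such a pair. -/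
lemma isHardySpace_subtype :
    IsHardySpace (Pool.Agent.MP_1d9d5b_an.H1 (2 * π)).subtypeₗᵢ := by
  ext f
  constructor
  · rintro ⟨g, rfl⟩
    exact g.2
  · intro hf
    exact ⟨⟨f, hf⟩, rfl⟩

/-- Negative answer to Q1: for every Riesz product `μ ∈ M₀(𝕋)`, the operator `T_μ f = μ * f` is a
bounded operator on `H¹(𝕋)` and its spectrum is `closure {μ̂(n) : n ≥ 0}`. -/
theorem result (μ : Measure (AddCircle (2 * π))) [IsFiniteMeasure μ] (hR : IsRieszProduct μ)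
    (h0 : IsRajchman μ) (X : Type) [NormedAddCommGroup X] [NormedSpace ℂ X] (J : X →ₗᵢ[ℂ] L1)
    (hJ : IsHardySpace J) :
    (∃ A : X →L[ℂ] X, IsMultiplier μ J A) ∧
      ∀ A : X →L[ℂ] X, IsMultiplier μ J A →
        spectrum ℂ A = closure {z | ∃ n : ℕ, z = coeff μ n} := by
  obtain ⟨n, a, hn0, hn, ha, hμ⟩ := hR
  have h := Pool.Agent.MP_1d9d5b_an.model_spectrum (T := 2 * π) (μ := μ) (n := n) (a := a)
    hn0 hn ha hμ h0 J hJ
  have hset : {z | ∃ n : ℕ, z = coeff μ n} = range fun m : ℕ => Pool.Agent.MP_1d9d5b_an.mc μ m := by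
    ext z
    constructor
    · rintro ⟨m, rfl⟩
      exact ⟨m, rfl⟩
    · rintro ⟨m, rfl⟩
      exact ⟨m, rfl⟩
  rw [hset]
  exact h

end Pool.Agent.Results.MP_1d9d5b_an.NaturalSpectrum
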